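import Pool.Agent.H84.KBOX.StmtsU

/-!
# Row STBP: stabilisation with events which are sets of points
-/

set_option autoImplicit false

namespace Pool.Agent.H67.KBX

open Finset Real Pool.KBX
open Pool.Agent.H49.Ent Pool.Agent.H32.Dense Pool.STK Pool.KAF Pool.KAL Pool.KS3

/-- Row STBP. -/
theorem stbp_thm : STBPStmt := by
  classical
  intro Ω Ξ _ p x M Q κ hp hQ
  by_contra hcon
  push Not at hcon
  have key : ∀ n ≤ M + 1, ∃ S : Set Ξ,
      Real.exp (-(∑ i ∈ range n, κ i)) ≤ Pr p {ω | x ω ∈ S} ∧
      (univ.filter fun i => ¬ Q i S).card + n ≤ M := by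
    intro n
    induction n with
    | zero =>
      intro _
      refine ⟨Set.univ, ?_, ?_⟩
      · have h1 : Pr p {ω | x ω ∈ (Set.univ : Set Ξ)} = 1 := by
          unfold Pr Pool.Agent.H49.Ent.law
          simp [hp.sum_one]
        rw [h1]
        simp
      · have := Finset.card_filter_le (univ : Finset (Fin M)) (fun i => ¬ Q i Set.univ)
        simpa using this
    | succ n ih =>
      intro hn
      obtain ⟨S, hS, hc⟩ := ih (by omega)
      obtain ⟨i, h1, S', hS', hP, hQ'⟩ := hcon n (by omega) S hS
      refine ⟨S', ?_, ?_⟩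
      · rw [Finset.sum_range_succ, neg_add, Real.exp_add]
        calc Real.exp (-(∑ i ∈ range n, κ i)) * Real.exp (-κ n)
            = Real.exp (-κ n) * Real.exp (-(∑ i ∈ range n, κ i)) := mul_comm _ _
          _ ≤ Real.exp (-κ n) * Pr p {ω | x ω ∈ S} :=
              mul_le_mul_of_nonneg_left hS (Real.exp_pos _).le
          _ ≤ _ := hP
      · have hlt : (univ.filter fun i => ¬ Q i S').card < (univ.filter fun i => ¬ Q i S).card := by
          refine Finset.card_lt_card ?_
          rw [Finset.ssubset_iff_of_subset]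
          · exact ⟨i, by simpa using h1, by simpa using hQ'⟩
          · intro j hj
            rw [Finset.mem_filter] at hj ⊢
            exact ⟨hj.1, fun h => hj.2 (hQ j S S' hS' h)⟩
        omega
  obtain ⟨S, -, h⟩ := key (M + 1) le_rfl
  omega

end Pool.Agent.H67.KBX
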