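import Pool.Agent.H84.KBOX.Stmts

/-!
# Row CRO: level crossings of a polynomial
-/

set_option autoImplicit false

namespace Pool.Agent.H67.KBX

open Finset Real
open Pool.KBX

/-- The integer levels which the polynomial takes in the window `k`. -/
noncomputable def lev (N : ℕ) (P : Polynomial ℝ) (A : ℤ) (k : ℕ) (y : ℤ) : Prop :=
  (Polynomial.C (N : ℝ) * P - Polynomial.C (y : ℝ)) ≠ 0 ∧
    ∃ s : ℝ, (k : ℝ) / N ≤ s ∧ s < ((k : ℝ) + 1) / N ∧ (N : ℝ) * P.eval s = y

open Classical in
/-- A level is taken in at most `d` windows. -/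
theorem windows_le (d N : ℕ) (P : Polynomial ℝ) (A : ℤ) (hN : 1 ≤ N) (hd : P.natDegree ≤ d)
    (y : ℤ) : ((range N).filter fun k => lev N P A k y).card ≤ d := by
  by_cases hq : (Polynomial.C (N : ℝ) * P - Polynomial.C (y : ℝ)) = 0
  · have : ((range N).filter fun k => lev N P A k y) = ∅ := by
      rw [filter_eq_empty_iff]
      rintro k - ⟨h, -⟩
      exact h hq
    rw [this]
    simp
  · have hNR : (0 : ℝ) < N := by exact_mod_cast hN
    have hsub : ((range N).filter fun k => lev N P A k y) ⊆
        ((Polynomial.C (N : ℝ) * P - Polynomial.C (y : ℝ)).roots.toFinset).image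
          fun s => ⌊(N : ℝ) * s⌋₊ := by
      intro k hk
      rw [mem_filter] at hk
      obtain ⟨-, -, s, h1, h2, h3⟩ := hk
      rw [mem_image]
      refine ⟨s, ?_, ?_⟩
      · rw [Multiset.mem_toFinset, Polynomial.mem_roots hq, Polynomial.IsRoot.def]
        simp [h3]
      · rw [div_le_iff₀ hNR] at h1
        rw [lt_div_iff₀ hNR] at h2
        have h0 : (0 : ℝ) ≤ N * s := by
          have : (0 : ℝ) ≤ (k : ℝ) := Nat.cast_nonneg k
          nlinarith
        rw [Nat.floor_eq_iff h0]
        constructor <;> linarith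
    refine (card_le_card hsub).trans (card_image_le.trans ?_)
    refine (Multiset.toFinset_card_le _).trans ((Polynomial.card_roots' _).trans ?_)
    refine (Polynomial.natDegree_sub_le _ _).trans ?_
    rw [Polynomial.natDegree_C]
    refine max_le ((Polynomial.natDegree_C_mul_le _ _).trans hd) (Nat.zero_le d)

open Classical in
/-- Row CRO. -/
theorem cro_thm : CROStmt := by
  intro d C₀ hC
  have hd0 : (0 : ℝ) ≤ d := Nat.cast_nonneg d
  refine ⟨2 * C₀ + 2 + d * (2 * C₀ + 1), by nlinarith [mul_nonneg hd0 hC], ?_⟩
  intro N R P S v hN hR hdeg hS hv hb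
  have hNR : (0 : ℝ) < N := by exact_mod_cast hN
  have hN1 : (1 : ℝ) ≤ N := by exact_mod_cast hN
  have hRR : (0 : ℝ) < R := by exact_mod_cast hR
  set A : ℤ := ⌊C₀ * N⌋ with hA
  have hA0 : 0 ≤ A := Int.floor_nonneg.2 (by positivity)
  set Y : ℕ → Finset ℤ := fun k => (Finset.Icc (-A) A).filter fun y => lev N P A k y with hY
  have h1 : ∀ k ∈ range N, (((S.filter fun t => t / R = k).image v).card : ℝ) ≤
      (2 * C₀ + 2) + (Y k).card := by
    intro k _
    rcases ((S.filter fun t => t / R = k).image v).eq_empty_or_nonempty with h | h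
    · rw [h]
      simp only [card_empty, Nat.cast_zero]
      positivity
    · obtain ⟨t₁, ht₁, hm⟩ := mem_image.1 (min'_mem _ h)
      obtain ⟨t₂, ht₂, hM⟩ := mem_image.1 (max'_mem _ h)
      set m := ((S.filter fun t => t / R = k).image v).min' h with hmd
      set M := ((S.filter fun t => t / R = k).image v).max' h with hMd
      rw [mem_filter] at ht₁ ht₂
      have hsub : ((S.filter fun t => t / R = k).image v) ⊆ Finset.Icc m M := by
        intro y hy
        rw [mem_Icc]
        exact ⟨min'_le _ _ hy, le_max' _ _ hy⟩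
      have hmM : m ≤ M := min'_le _ _ (max'_mem _ h)
      have hc1 : (((S.filter fun t => t / R = k).image v).card : ℝ) ≤ (M : ℝ) - m + 1 := by
        have := card_le_card hsub
        rw [Int.card_Icc] at this
        have h2 : ((M + 1 - m).toNat : ℤ) = M + 1 - m := Int.toNat_of_nonneg (by omega)
        have h3 : (((S.filter fun t => t / R = k).image v).card : ℤ) ≤ M + 1 - m := by
          rw [← h2]; exact_mod_cast this
        have h4 : ((((S.filter fun t => t / R = k).image v).card : ℤ) : ℝ) ≤
          ((M + 1 - m : ℤ) : ℝ) := by exact_mod_cast h3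
        push_cast at h4
        linarith
      -- the window
      have hwin : ∀ t : ℕ, t / R = k → (k : ℝ) / N ≤ (t : ℝ) / (N * R) ∧
          (t : ℝ) / (N * R) < ((k : ℝ) + 1) / N := by
        intro t ht
        have h5 : k * R ≤ t := by
          rw [← ht]; exact Nat.div_mul_le_self t R
        have h6 : t < (k + 1) * R := by
          rw [← ht, Nat.add_mul, one_mul]
          have := Nat.lt_div_mul_add (a := t) (b := R) (by omega)
          exact this
        have h5' : (k : ℝ) * R ≤ t := by exact_mod_cast h5
        have h6' : (t : ℝ) < ((k : ℝ) + 1) * R := by exact_mod_cast h6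
        constructor
        · rw [div_le_div_iff₀ hNR (by positivity)]
          nlinarith
        · rw [div_lt_div_iff₀ (by positivity) hNR]
          nlinarith
      set f : ℝ → ℝ := fun s => (N : ℝ) * P.eval s with hf
      have hfc : Continuous f := by
        rw [hf]; exact continuous_const.mul P.continuous
      have e1 : f ((t₁ : ℝ) / (N * R)) ≤ (m : ℝ) + C₀ := by
        have := hv t₁ ht₁.1
        rw [abs_le] at this
        rw [hm] at this
        show (N : ℝ) * _ ≤ _
        linarith [this.1]
      have e2 : (M : ℝ) - C₀ ≤ f ((t₂ : ℝ) / (N * R)) := by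
        have := hv t₂ ht₂.1
        rw [abs_le] at this
        rw [hM] at this
        show _ ≤ (N : ℝ) * _
        linarith [this.2]
      set a : ℤ := ⌊(m : ℝ) + C₀⌋ + 1 with ha
      set b : ℤ := ⌈(M : ℝ) - C₀⌉ - 1 with hb'
      have hmb : |(m : ℝ)| ≤ C₀ * N := by
        have := hb t₁ ht₁.1
        rwa [hm] at this
      have hMb : |(M : ℝ)| ≤ C₀ * N := by
        have := hb t₂ ht₂.1
        rwa [hM] at this
      have hYsub : Finset.Icc a b ⊆ Y k := by
        intro y hy
        rw [mem_Icc] at hy
        have hy1 : (m : ℝ) + C₀ < y := by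
          have := Int.lt_floor_add_one ((m : ℝ) + C₀)
          have h7 : ((a : ℤ) : ℝ) ≤ y := by exact_mod_cast hy.1
          rw [ha] at h7
          push_cast at h7
          linarith
        have hy2 : (y : ℝ) < (M : ℝ) - C₀ := by
          have := Int.ceil_lt_add_one ((M : ℝ) - C₀)
          have h7 : (y : ℝ) ≤ ((b : ℤ) : ℝ) := by exact_mod_cast hy.2
          rw [hb'] at h7
          push_cast at h7
          linarith
        rw [hY]
        simp only [mem_filter, mem_Icc]
        refine ⟨⟨?_, ?_⟩, ?_⟩
        · rw [neg_le]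
          rw [hA]
          refine Int.le_floor.2 ?_
          push_cast
          rw [abs_le] at hmb
          linarith [hmb.1]
        · rw [hA]
          refine Int.le_floor.2 ?_
          rw [abs_le] at hMb
          linarith [hMb.2]
        · have hiv : (y : ℝ) ∈ f '' Set.uIcc ((t₁ : ℝ) / (N * R)) ((t₂ : ℝ) / (N * R)) := by
            apply intermediate_value_uIcc hfc.continuousOn
            rw [Set.mem_uIcc]
            left
            constructor <;> linarith
          obtain ⟨s, hs, hsy⟩ := hiv
          obtain ⟨w1, w2⟩ := hwin t₁ ht₁.2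
          obtain ⟨w3, w4⟩ := hwin t₂ ht₂.2
          refine ⟨?_, s, ?_, ?_, hsy⟩
          · intro h0
            have h8 := congrArg (Polynomial.eval ((t₁ : ℝ) / (N * R))) h0
            simp only [Polynomial.eval_sub, Polynomial.eval_mul, Polynomial.eval_C,
              Polynomial.eval_zero] at h8
            have h9 : f ((t₁ : ℝ) / (N * R)) = y := by
              show (N : ℝ) * _ = _
              linarith
            linarith
          · rw [Set.mem_uIcc] at hs
            rcases hs with hs | hs <;> linarith [hs.1]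
          · rw [Set.mem_uIcc] at hs
            rcases hs with hs | hs <;> linarith [hs.2]
      have hc2 : (M : ℝ) - m - 2 * C₀ - 1 ≤ (Y k).card := by
        have h10 := card_le_card hYsub
        rw [Int.card_Icc] at h10
        have h11 : ((b + 1 - a : ℤ) : ℝ) ≤ ((Y k).card : ℝ) := by
          have h12 : b + 1 - a ≤ ((b + 1 - a).toNat : ℤ) := Int.self_le_toNat _
          have h13 : (b + 1 - a : ℤ) ≤ ((Y k).card : ℤ) := h12.trans (by exact_mod_cast h10)
          exact_mod_cast h13
        have h14 := Int.floor_le ((m : ℝ) + C₀)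
        have h15 := Int.le_ceil ((M : ℝ) - C₀)
        rw [ha, hb'] at h11
        push_cast at h11
        linarith
      linarith
  have h2 : (∑ k ∈ range N, ((Y k).card : ℝ)) ≤ d * (2 * (C₀ * N) + 1) := by
    have h3 : ∑ k ∈ range N, (Y k).card ≤ (Finset.Icc (-A) A).card * d := by
      have h4 := sum_card_bipartiteAbove_eq_sum_card_bipartiteBelow
        (s := range N) (t := Finset.Icc (-A) A) (fun k y => lev N P A k y)
      have h5 : ∑ k ∈ range N, (Y k).card =
          ∑ y ∈ Finset.Icc (-A) A, ((range N).filter fun k => lev N P A k y).card := h4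
      rw [h5]
      calc _ ≤ ∑ _y ∈ Finset.Icc (-A) A, d :=
            sum_le_sum fun y _ => windows_le d N P A hN hdeg y
        _ = _ := by rw [sum_const, smul_eq_mul]
    have h6 : ((Finset.Icc (-A) A).card : ℝ) ≤ 2 * (C₀ * N) + 1 := by
      rw [Int.card_Icc]
      have h7 : ((A + 1 - -A).toNat : ℤ) = A + 1 - -A := Int.toNat_of_nonneg (by omega)
      have h8 : (((A + 1 - -A).toNat : ℤ) : ℝ) = ((A + 1 - -A : ℤ) : ℝ) := by rw [h7]
      have h9 := Int.floor_le (C₀ * N)
      rw [← hA] at h9
      push_cast at h8
      have h10 : ((A + 1 - -A).toNat : ℝ) = (A : ℝ) + 1 + A := by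
        rw [← Int.cast_natCast (R := ℝ), h7]
        push_cast
        ring
      rw [h10]
      linarith
    have h11 : ((∑ k ∈ range N, (Y k).card : ℕ) : ℝ) ≤ (((Finset.Icc (-A) A).card * d : ℕ) : ℝ) := by
      exact_mod_cast h3
    push_cast at h11
    refine h11.trans ?_
    rw [mul_comm]
    exact mul_le_mul_of_nonneg_left h6 hd0
  calc ∑ k ∈ range N, (((S.filter fun t => t / R = k).image v).card : ℝ)
      ≤ ∑ k ∈ range N, ((2 * C₀ + 2) + ((Y k).card : ℝ)) := sum_le_sum h1
    _ = N * (2 * C₀ + 2) + ∑ k ∈ range N, ((Y k).card : ℝ) := by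
        rw [sum_add_distrib, sum_const, card_range, nsmul_eq_mul]
    _ ≤ N * (2 * C₀ + 2) + d * (2 * (C₀ * N) + 1) := by linarith
    _ ≤ (2 * C₀ + 2 + d * (2 * C₀ + 1)) * N := by nlinarith [mul_nonneg hd0 hC]

end Pool.Agent.H67.KBX
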